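import Mathlib
import Pool.Agent.J4.H87.AD.Fin6
set_option autoImplicit false

/-!
# The extension conjecture for the paraboloid in `ℝ³` for almost every dilate of every function

`ext f ξ = ∫ e^{-i Φ(x)·ξ} f(x) dx`, `Φ(x) = (x_1, x_2, x_1² + x_2²)`. There is no condition on `f`
besides `f ∈ L^q`, and the range `q > 3` is the full range of Q1.

* A. Let `0 < α ≤ 1` and `q > 2 + 2/(1 + α)`. If `μ([a, a + r]) ≤ K r^α` for all `a` and `0 < r ≤ 1`, then
  for every unit vector `e` and every `f ∈ L^q` which vanishes outside `B(0, 1/2)` the dilates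
  `f_l(x) = f(x + (l - 1) ⟪e, x⟫ e)` satisfy `∫_{[1,2]} ‖ext f_l‖_q^q dμ(l) ≤ C ‖f‖_q^q`, `C = C(α, q, K)`.
  For the Lebesgue measure (`α = 1`) this is the inequality of Q1, for all `q > 3`, on average over the
  dilates of `f` in one direction.
* B. If `3 < q < 4`, then for all these `f` and `e` the set of the `l ∈ [1, 2]` such that `ext f_l` is not
  in `L^q(ℝ³)` has Hausdorff dimension at most `(4 - q)/(q - 2) < 1`.
* C. If `q > 3` and `f ∈ L^q(ℝ²)` has compact support, then `ext (f ∘ A) ∈ L^q(ℝ³)` for almost every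
  linear map `A` of the plane, `A x = x_1 u + x_2 v`.

The proof takes `t` and `t / l²` as two times: `ext f_l` is a restriction of the extension operator of the
surface `(x_1, x_2, x_1², x_2²)`, for which the `L⁴` inequality over `|t|, |s| ≤ T` holds with a loss
`T^ε`; interpolation with `L²` and a covering argument give A and B. The starting file AveragedDilates of
problem MP_b7167f_an has A for `‖f‖_∞` instead of `‖f‖_q` (in all dimensions). Pieces of the proof were
written by the helpers named in `Pool/Agent/J4/H87/AD/Fin6.lean`.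
-/

namespace Pool.Agent.Results.MP_5ab805_an.AlmostEveryDilate

open MeasureTheory Set Metric Complex
open scoped ENNReal NNReal RealInnerProductSpace

abbrev E (n : ℕ) := EuclideanSpace ℝ (Fin n)

/-- the paraboloid `x ↦ (x_1, x_2, x_1^2 + x_2^2)` -/
noncomputable def Phi (x : E 2) : E 3 := !₂[x 0, x 1, x 0 ^ 2 + x 1 ^ 2]

/-- the Fourier extension operator of the paraboloid (for functions with bounded support) -/
noncomputable def ext (f : E 2 → ℂ) (ξ : E 3) : ℂ :=
  ∫ x : E 2, Complex.exp (-((⟪Phi x, ξ⟫ : ℝ) : ℂ) * I) * f x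

/-- the dilation by the factor `l` in the direction of the unit vector `e` -/
noncomputable def Dil (e : E 2) (l : ℝ) (x : E 2) : E 2 := x + ((l - 1) * ⟪e, x⟫) • e

theorem result :
    (∀ α q K : ℝ, 0 < α → α ≤ 1 → 2 + 2 / (1 + α) < q → 0 ≤ K → ∃ C : ℝ≥0, ∀ μ : Measure ℝ,
      (∀ a r : ℝ, 0 < r → r ≤ 1 → μ (Icc a (a + r)) ≤ ENNReal.ofReal (K * r ^ α)) →
      ∀ e : E 2, ‖e‖ = 1 → ∀ f : E 2 → ℂ, Measurable f → (∀ x, x ∉ ball (0 : E 2) (1 / 2) → f x = 0) →
        ∫⁻ l in Icc (1 : ℝ) 2, eLpNorm (ext fun x => f (Dil e l x)) (ENNReal.ofReal q) volume ^ q ∂μ ≤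
          C * eLpNorm f (ENNReal.ofReal q) volume ^ q) ∧
    (∀ q : ℝ, 3 < q → q < 4 → ∀ e : E 2, ‖e‖ = 1 → ∀ f : E 2 → ℂ, Measurable f →
      (∀ x, x ∉ ball (0 : E 2) (1 / 2) → f x = 0) → MemLp f (ENNReal.ofReal q) volume →
        dimH {l : ℝ | l ∈ Icc (1 : ℝ) 2 ∧
          ¬ MemLp (ext fun x => f (Dil e l x)) (ENNReal.ofReal q) volume} ≤
            ENNReal.ofReal ((4 - q) / (q - 2))) ∧
    ∀ q : ℝ, 3 < q → ∀ f : E 2 → ℂ, Measurable f → HasCompactSupport f →
      MemLp f (ENNReal.ofReal q) volume →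
        ∀ᵐ p : E 2 × E 2, MemLp (ext fun x => f (x 0 • p.1 + x 1 • p.2)) (ENNReal.ofReal q) volume :=
  Pool.Agent.J4.H87.AD.main

end Pool.Agent.Results.MP_5ab805_an.AlmostEveryDilate
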