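import Mathlib
import Pool.Agent.J4.H87.CyH
set_option autoImplicit false

/-!
# The extension conjecture for the paraboloid in `ℝ³`: weights with an arbitrary planar factor

`ext U f ξ = ∫_U e^{-i Φ(x)·ξ} f(x) dx`, `Φ(x) = (x_1, x_2, x_1² + x_2²)`. By duality the
conjecture says that for every `q > 3`, with `r = (q/2)' = q/(q-2) < 3`,

`∫ |ext U f|² W ≤ C ‖W‖_{L^r(ℝ³)} ‖f‖_q²` for all weights `W ≥ 0`.

* A. For all `1 ≤ r < 3`, that is in the full range `q > 3`, this holds, with `‖f‖_∞` in place of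
  `‖f‖_q`, for all weights `W(ξ) = u(⟪v_0, ξ⟫, ⟪v_1, ξ⟫) w(⟪v_2, ξ⟫)`, where `u` is an ARBITRARY
  function of two variables, `w` an arbitrary function of one variable and `v` an ARBITRARY basis
  of `ℝ³`. The constant depends only on `r`; it is the same for all bases.
* B. For all `1 < r < 2` and all orthonormal bases `e`,
  `∫ |ext U f|² u(⟪e_0, ξ⟫, ⟪e_1, ξ⟫) dξ ≤ C ‖u‖_{L^r(ℝ²)} ‖f‖_∞²`, `C = C(r)`. In other words, the
  integrals of `|ext U f|²` over the lines of any fixed direction are in `L^s(ℝ²)` for all `s > 2`,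
  uniformly in the direction.
* C. Hence for `3 < q < 4` the inequality `∫_G |ext U f|² ≤ C |G|^{1 - 2/q} ‖f‖_∞²` holds for all
  measurable sets `G` one of whose planar shadows has the area at most `K |G|^{2/3}`, `C = C(q, K)`.
-/

namespace Pool.Agent.Results.MP_5ab805_an.PlanarFactors

open MeasureTheory Set Metric Complex
open scoped ENNReal NNReal RealInnerProductSpace

abbrev E (n : ℕ) := EuclideanSpace ℝ (Fin n)

/-- the paraboloid `x ↦ (x_1, x_2, x_1^2 + x_2^2)` -/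
noncomputable def Phi (x : E 2) : E 3 := !₂[x 0, x 1, x 0 ^ 2 + x 1 ^ 2]

/-- the Fourier extension operator of the paraboloid over `U` -/
noncomputable def ext (U : Set (E 2)) (f : E 2 → ℂ) (ξ : E 3) : ℂ :=
  ∫ x in U, Complex.exp (-((⟪Phi x, ξ⟫ : ℝ) : ℂ) * I) * f x

/-- `U ⊆ B(0, 1/2)` is measurable and `f ∈ L^∞(U)` -/
def Admissible (U : Set (E 2)) (f : E 2 → ℂ) : Prop :=
  MeasurableSet U ∧ U ⊆ ball 0 (1 / 2) ∧ MemLp f ∞ (volume.restrict U)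

/-- the weight `u(⟪v_0, ξ⟫, ⟪v_1, ξ⟫) w(⟪v_2, ξ⟫)` -/
noncomputable def W (v : Fin 3 → E 3) (u : ℝ × ℝ → ℝ≥0∞) (w : ℝ → ℝ≥0∞) (ξ : E 3) : ℝ≥0∞ :=
  u (⟪v 0, ξ⟫, ⟪v 1, ξ⟫) * w ⟪v 2, ξ⟫

/-- A. Products of a function of two coordinates and a function of the third one, in all bases. -/
def ProductWeights : Prop :=
  ∀ r : ℝ, 1 ≤ r → r < 3 → ∃ C : ℝ≥0, ∀ (U : Set (E 2)) (f : E 2 → ℂ) (v : Fin 3 → E 3)
    (u : ℝ × ℝ → ℝ≥0∞) (w : ℝ → ℝ≥0∞), Admissible U f → LinearIndependent ℝ v →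
    Measurable u → Measurable w →
    ∫⁻ ξ, W v u w ξ * ‖ext U f ξ‖ₑ ^ 2 ≤
      C * (∫⁻ ξ, W v u w ξ ^ r) ^ (1 / r) * eLpNorm f ∞ (volume.restrict U) ^ 2

/-- B. Functions of two orthonormal coordinates. -/
def CylindricalWeights : Prop :=
  ∀ r : ℝ, 1 < r → r < 2 → ∃ C : ℝ≥0, ∀ (U : Set (E 2)) (f : E 2 → ℂ)
    (e : OrthonormalBasis (Fin 3) ℝ (E 3)) (u : ℝ × ℝ → ℝ≥0∞), Admissible U f → Measurable u →
    ∫⁻ ξ, u (⟪e 0, ξ⟫, ⟪e 1, ξ⟫) * ‖ext U f ξ‖ₑ ^ 2 ≤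
      C * (∫⁻ p, u p ^ r) ^ (1 / r) * eLpNorm f ∞ (volume.restrict U) ^ 2

/-- C. Sets with a small shadow. -/
def SmallShadows : Prop :=
  ∀ q : ℝ, 3 < q → q < 4 → ∀ K : ℝ≥0, ∃ C : ℝ≥0, ∀ (U : Set (E 2)) (f : E 2 → ℂ)
    (e : OrthonormalBasis (Fin 3) ℝ (E 3)) (A : Set (ℝ × ℝ)) (G : Set (E 3)),
    Admissible U f → MeasurableSet A → MeasurableSet G →
    (∀ ξ ∈ G, (⟪e 0, ξ⟫, ⟪e 1, ξ⟫) ∈ A) → volume A ≤ K * volume G ^ (2 / 3 : ℝ) →
    ∫⁻ ξ in G, ‖ext U f ξ‖ₑ ^ 2 ≤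
      C * volume G ^ (1 - 2 / q) * eLpNorm f ∞ (volume.restrict U) ^ 2

/-- **Theorem.** The extension conjecture for the paraboloid in `ℝ³`, tested on weights with an
arbitrary planar factor. -/
theorem result : ProductWeights ∧ CylindricalWeights ∧ SmallShadows := by
  refine ⟨fun r hr hr3 => ?_, fun r hr hr2 => ?_, fun q hq hq4 K => ?_⟩
  · obtain ⟨C, hC⟩ := Pool.Agent.J4.H87.Cy.finP hr hr3
    exact ⟨C, fun U f v u w h hv hu hw => hC U f v u w h.1 h.2.1 h.2.2 hv hu hw⟩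
  · obtain ⟨C, hC⟩ := Pool.Agent.J4.H87.Cy.finX hr hr2
    exact ⟨C, fun U f e u h hu => hC U f e u h.1 h.2.1 h.2.2 hu⟩
  · obtain ⟨C, hC⟩ := Pool.Agent.J4.H87.Cy.finS hq hq4 K
    exact ⟨C, fun U f e A G h hA hG hGA hK => hC U f e A G h.1 h.2.1 h.2.2 hA hG hGA hK⟩

end Pool.Agent.Results.MP_5ab805_an.PlanarFactors
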