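import Mathlib
import Pool.Agent.J4.H87.PA.Fin4
set_option autoImplicit false

/-!
# The extension conjecture for the paraboloid in `ℝ³`: arbitrary polynomial phases

`ext U f ξ = ∫_U e^{-i Φ(x)·ξ} f(x) dx`, `Φ(x) = (x_1, x_2, x_1² + x_2²)`, `U ⊆ B(0, 1/2)`, and
`f` lives on countably many disjoint discs `D_j = B(c_j, r_j) ⊆ U`, of which at most `K ρ^{-β}`
have a radius greater than `ρ`, for every `ρ > 0`, where `β < (2q - 6) / (q - 1)`. For instance one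
disc, or a bounded number of discs for each dyadic size. Full range `q > 3`.

* A. If on each `D_j` `f = e^{iψ_j} g_j`, where the real function `ψ_j` is of class `C^m` with
  `|D^m ψ_j| ≤ L_j r_j^{-m}` on `2 D_j` (the derivatives of lower order are arbitrary) and where `g_j`
  is bounded by `M_j` and satisfies `∫ |g_j(x + v) - g_j(x)| dx ≤ M_j r_j^{2-s} |v|^s` with
  `2/(q-1) < s ≤ 1`, then `‖ext U f‖_q ≤ C (∑_j r_j² (L_j^{2/m} M_j)^q)^{1/q}`.
* B. If on each `D_j` `f = a_j e^{iP_j}`, where `P_j` is a real polynomial and `a_j` is a complex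
  polynomial of degree at most `n`, both with arbitrary coefficients, then `f` satisfies the
  inequality of Q1: `‖ext U f‖_q ≤ C ‖f‖_{L^q(U)}`.

The constants depend only on `q, β, K, m, s` and on `q, β, K, n`.
-/

namespace Pool.Agent.Results.MP_5ab805_an.PolynomialPhases

open MeasureTheory Set Metric Complex
open scoped ENNReal NNReal RealInnerProductSpace

abbrev E (n : ℕ) := EuclideanSpace ℝ (Fin n)

/-- the paraboloid `x ↦ (x_1, x_2, x_1^2 + x_2^2)` -/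
noncomputable def Phi (x : E 2) : E 3 := !₂[x 0, x 1, x 0 ^ 2 + x 1 ^ 2]

/-- the Fourier extension operator of the paraboloid over `U` -/
noncomputable def ext (U : Set (E 2)) (f : E 2 → ℂ) (ξ : E 3) : ℂ :=
  ∫ x in U, Complex.exp (-((⟪Phi x, ξ⟫ : ℝ) : ℂ) * I) * f x

/-- `U ⊆ B(0, 1/2)` is measurable, `f` is measurable and vanishes outside the union of the discs
`B(c_j, r_j)`, which are disjoint subsets of `U` (empty if `r_j = 0`), and for each `ρ > 0` at most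
`K ρ^{-β}` of them have a radius greater than `ρ`. -/
structure Packed (β K : ℝ) (U : Set (E 2)) (c : ℕ → E 2) (r : ℕ → ℝ) (f : E 2 → ℂ) : Prop where
  measurableSet : MeasurableSet U
  subset : U ⊆ ball 0 (1 / 2)
  measurable : Measurable f
  nonneg : ∀ j, 0 ≤ r j
  inside : ∀ j, ball (c j) (r j) ⊆ U
  disjoint : Pairwise fun i j => Disjoint (ball (c i) (r i)) (ball (c j) (r j))
  zero : ∀ x, (∀ j, x ∉ ball (c j) (r j)) → f x = 0
  count : ∀ ρ : ℝ, 0 < ρ → {j | ρ < r j}.Finite ∧ ({j | ρ < r j}.ncard : ℝ) ≤ K * ρ ^ (-β)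

/-- A. On the disc `B(c, r)` `f = e^{iψ} g`, where `ψ` is of class `C^m` with
`|D^m ψ| ≤ L r^{-m}` on the closed disc of radius `2r`, `|g| ≤ M`, `g` vanishes outside `B(c, r)`
and `∫ |g(x + v) - g(x)| dx ≤ M r^{2-s} |v|^s` for all `v`. -/
def Chirp (m : ℕ) (s : ℝ) (c : E 2) (r L M : ℝ) (f : E 2 → ℂ) : Prop :=
  1 ≤ L ∧ 0 ≤ M ∧ ∃ (ψ : E 2 → ℝ) (g : E 2 → ℂ), ContDiff ℝ m ψ ∧
    (∀ x, ‖x - c‖ ≤ 2 * r → ‖iteratedFDeriv ℝ m ψ x‖ ≤ L * r ^ (-(m : ℝ))) ∧ Measurable g ∧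
    (∀ x, x ∉ ball c r → g x = 0) ∧ (∀ x ∈ ball c r, f x = Complex.exp (ψ x * I) * g x) ∧
    (∀ x, ‖g x‖ ≤ M) ∧
    ∀ v : E 2, ∫⁻ x, ‖g (x + v) - g x‖ₑ ≤ ENNReal.ofReal (M * r ^ (2 - s) * ‖v‖ ^ s)

/-- the value of the polynomial `p` at the point `x` -/
noncomputable def val (p : MvPolynomial (Fin 2) ℝ) (x : E 2) : ℝ :=
  MvPolynomial.eval (fun i => x i) p

/-- B. On the disc `B(c, r)` `f = (a + i b) e^{iP}` with real polynomials `P, a, b` of degree at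
most `n`. -/
def PolynomialChirp (n : ℕ) (c : E 2) (r : ℝ) (f : E 2 → ℂ) : Prop :=
  ∃ P a b : MvPolynomial (Fin 2) ℝ, P.totalDegree ≤ n ∧ a.totalDegree ≤ n ∧ b.totalDegree ≤ n ∧
    ∀ x ∈ ball c r, f x = Complex.exp (val P x * I) * (val a x + val b x * I)

theorem result (q β K : ℝ) (hq : 3 < q) (hβ : β < (2 * q - 6) / (q - 1)) (hK : 0 ≤ K) :
    (∀ (m : ℕ) (s : ℝ), 1 ≤ m → 2 / (q - 1) < s → s ≤ 1 →
      ∃ C : ℝ≥0, ∀ (U : Set (E 2)) (c : ℕ → E 2) (r L M : ℕ → ℝ) (f : E 2 → ℂ),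
        Packed β K U c r f → (∀ j, 0 < r j → Chirp m s (c j) (r j) (L j) (M j) f) →
        eLpNorm (ext U f) (ENNReal.ofReal q) volume ≤
          C * (∑' j, ENNReal.ofReal (r j ^ 2 * (L j ^ (2 / (m : ℝ)) * M j) ^ q)) ^ (1 / q)) ∧
    ∀ n : ℕ, ∃ C : ℝ≥0, ∀ (U : Set (E 2)) (c : ℕ → E 2) (r : ℕ → ℝ) (f : E 2 → ℂ),
      Packed β K U c r f → (∀ j, 0 < r j → PolynomialChirp n (c j) (r j) f) →
      eLpNorm (ext U f) (ENNReal.ofReal q) volume ≤
        C * eLpNorm f (ENNReal.ofReal q) (volume.restrict U) := by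
  have hβ' : β * (q - 1) < 2 * q - 6 := by
    rwa [lt_div_iff₀ (by linarith)] at hβ
  constructor
  · intro m s hm hs hs1
    obtain ⟨C, hC⟩ := Pool.Agent.J4.H87.PA.partA q β K hq hβ' hK m hm s
      (by rw [div_lt_iff₀ (by linarith)] at hs; exact hs) hs1
    exact ⟨C, fun U c r L M f hP h => hC U f c r L M ⟨hP.1, hP.2, hP.4, hP.5, hP.6, hP.8⟩
      hP.measurable hP.zero h⟩
  · intro n
    obtain ⟨C, hC⟩ := Pool.Agent.J4.H87.PA.partB q β K hq hβ' hK n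
    exact ⟨C, fun U c r f hP h => hC U f c r ⟨hP.1, hP.2, hP.4, hP.5, hP.6, hP.8⟩
      hP.measurable hP.zero h⟩

end Pool.Agent.Results.MP_5ab805_an.PolynomialPhases
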