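import Mathlib
import Pool.Agent.J4.H87.RayZ3
set_option autoImplicit false

/-!
# The extension conjecture for the paraboloid in `ℝ³`: the local variation along rays

`ext U f ξ = ∫_U e^{-i Φ(x)·ξ} f(x) dx`, `Φ(x) = (x_1, x_2, x_1² + x_2²)`, `U ⊆ B(0, 1/2)`, and
`f` vanishes outside `U`. For a point `y` let `ray f y θ` be the restriction of `f` to the ray
`r ↦ y + r (cos θ, sin θ)`, `r > 0`. The theorem is the inequality of Q1, in the full range
`q > 3`, with the local variation of `f` along the rays from `y` added on the right-hand side: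

* A. if `v (y + r (cos θ, sin θ))` is at least the variation of `ray f y θ` on `[r/2, 2r]`, for
  almost all `θ` and all `r > 0`, then `‖ext U f‖_q ≤ C (‖f‖_{L^q(U)} + ‖v‖_{L^q(ℝ²)})`.

There is no regularity at all in the angle `θ`, and `C` depends only on `q` and on a bound `ρ` for
`|y|`. Hence the inequality of Q1 itself, `‖ext U f‖_q ≤ C ‖f‖_{L^q(U)}`, holds for all `f` whose
local variation along the rays is bounded by their local means along the rays:

* B. for all `f` whose variation on every dyadic piece of the rays is at most `K` times the mean of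
  `|f|` over the enlarged piece (`C` depends on `q`, `ρ`, `K`);
* C. for all `f` with nonincreasing absolute value and constant argument along the rays. For
  instance for `f (y + r (cos θ, sin θ)) = a(θ)` on a measurable set `U` which is star-shaped
  with respect to `y`, with an arbitrary measurable function `a`;
* D. for all `f` which are along the rays polynomials in `r` of degree at most `d`, with arbitrary
  coefficients depending on `θ`, restricted to a star-shaped set (`C` depends on `q`, `ρ`, `d`).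
-/

namespace Pool.Agent.Results.MP_5ab805_an.RayVariation

open MeasureTheory Set Metric Complex
open scoped ENNReal NNReal RealInnerProductSpace

abbrev E (n : ℕ) := EuclideanSpace ℝ (Fin n)

/-- the paraboloid `x ↦ (x_1, x_2, x_1^2 + x_2^2)` -/
noncomputable def Phi (x : E 2) : E 3 := !₂[x 0, x 1, x 0 ^ 2 + x 1 ^ 2]

/-- the Fourier extension operator of the paraboloid over `U` -/
noncomputable def ext (U : Set (E 2)) (f : E 2 → ℂ) (ξ : E 3) : ℂ :=
  ∫ x in U, Complex.exp (-((⟪Phi x, ξ⟫ : ℝ) : ℂ) * I) * f x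

/-- the point `y + r (cos θ, sin θ)` -/
noncomputable def pt (y : E 2) (θ r : ℝ) : E 2 := y + r • !₂[Real.cos θ, Real.sin θ]

/-- the restriction `r ↦ f (y + r (cos θ, sin θ))` of `f` to the ray from `y` with the angle `θ` -/
noncomputable def ray (f : E 2 → ℂ) (y : E 2) (θ : ℝ) (r : ℝ) : ℂ := f (pt y θ r)

/-- `P (ray f y θ)` for almost all angles `θ` in `(-π, π)` -/
def OnRays (f : E 2 → ℂ) (y : E 2) (P : (ℝ → ℂ) → Prop) : Prop :=
  ∀ᵐ θ ∂(volume.restrict (Ioo (-Real.pi) Real.pi)), P (ray f y θ)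

/-- `U ⊆ B(0, 1/2)` is measurable, `f` is measurable and vanishes outside `U`, and `|y| ≤ ρ` -/
def Admissible (ρ : ℝ) (U : Set (E 2)) (f : E 2 → ℂ) (y : E 2) : Prop :=
  MeasurableSet U ∧ U ⊆ ball 0 (1 / 2) ∧ Measurable f ∧ (∀ x, x ∉ U → f x = 0) ∧ ‖y‖ ≤ ρ

/-- `v` is at least the local variation of `f` along the rays from `y`. -/
def Majorizes (v : E 2 → ℝ≥0∞) (f : E 2 → ℂ) (y : E 2) : Prop :=
  ∀ᵐ θ ∂(volume.restrict (Ioo (-Real.pi) Real.pi)), ∀ r : ℝ, 0 < r →
    eVariationOn (ray f y θ) (Icc (r / 2) (2 * r)) ≤ v (pt y θ r)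

/-- The inequality of Q1 holds, with one constant, for all admissible `f` with the property `P` on
almost all rays from `y`. -/
def Q1On (q ρ : ℝ) (P : (ℝ → ℂ) → Prop) : Prop :=
  ∃ C : ℝ≥0, ∀ (U : Set (E 2)) (f : E 2 → ℂ) (y : E 2), Admissible ρ U f y → OnRays f y P →
    eLpNorm (ext U f) (ENNReal.ofReal q) volume ≤
      C * eLpNorm f (ENNReal.ofReal q) (volume.restrict U)

/-- B. On every dyadic piece `[l/2, l]` the variation of `F` is at most
`(K / l) ∫_{l/8}^{8l} |F|`. -/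
def RelativelyBV (K : ℝ) (F : ℝ → ℂ) : Prop :=
  ∀ l : ℝ, 0 < l → eVariationOn F (Icc (l / 2) l) ≤
    ENNReal.ofReal (K / l) * ∫⁻ r in Ioc (l / 8) (8 * l), ‖F r‖ₑ

/-- C. `F = a g` on `(0, ∞)` with a constant `a` and a nonincreasing `g ≥ 0`. -/
def Decreasing (F : ℝ → ℂ) : Prop :=
  ∃ (a : ℂ) (g : ℝ → ℝ), AntitoneOn g (Ioi 0) ∧ (∀ r, 0 < r → 0 ≤ g r) ∧
    ∀ r, 0 < r → F r = a * (g r : ℂ)

/-- D. `F` is on `(0, ∞)` a polynomial of degree at most `d`, restricted to an initial segment. -/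
def CutPolynomial (d : ℕ) (F : ℝ → ℂ) : Prop :=
  ∃ (a : Fin (d + 1) → ℂ) (S : Set ℝ), (∀ r ∈ S, ∀ r', 0 < r' → r' ≤ r → r' ∈ S) ∧
    ∀ r, 0 < r → F r = S.indicator (fun r => ∑ j, a j * (r : ℂ) ^ (j : ℕ)) r

theorem result (q ρ : ℝ) (hq : 3 < q) (hρ : 0 ≤ ρ) :
    (∃ C : ℝ≥0, ∀ (U : Set (E 2)) (f : E 2 → ℂ) (y : E 2) (v : E 2 → ℝ≥0∞), Admissible ρ U f y →
      Measurable v → Majorizes v f y →
      eLpNorm (ext U f) (ENNReal.ofReal q) volume ≤
        C * (eLpNorm f (ENNReal.ofReal q) (volume.restrict U) + (∫⁻ x, v x ^ q) ^ (1 / q))) ∧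
    (∀ K : ℝ, 0 ≤ K → Q1On q ρ (RelativelyBV K)) ∧
    Q1On q ρ Decreasing ∧
    ∀ d : ℕ, Q1On q ρ (CutPolynomial d) := by
  refine ⟨?_, ?_, ?_, ?_⟩
  · obtain ⟨C, hC⟩ := Pool.Agent.J4.H87.Ray.finU hq hρ
    exact ⟨C, fun U f y v h hv hae => hC U f y v h.1 h.2.1 h.2.2.1 h.2.2.2.1 h.2.2.2.2 hv hae⟩
  · intro K hK
    obtain ⟨C, hC⟩ := Pool.Agent.J4.H87.Ray.finB hq hρ hK
    exact ⟨C, fun U f y h hae => hC U f y h.1 h.2.1 h.2.2.1 h.2.2.2.1 h.2.2.2.2 hae⟩
  · obtain ⟨C, hC⟩ := Pool.Agent.J4.H87.Ray.finB hq hρ (K := 3) (by norm_num)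
    refine ⟨C, fun U f y h hae => hC U f y h.1 h.2.1 h.2.2.1 h.2.2.2.1 h.2.2.2.2 ?_⟩
    filter_upwards [hae] with θ hθ
    obtain ⟨a, g, hg, hg0, hF⟩ := hθ
    exact Pool.Agent.J4.H87.Ray.relBV_anti hg hg0 hF
  · intro d
    obtain ⟨K, hK, hP⟩ := Pool.Agent.J4.H87.Ray.relBV_poly d
    obtain ⟨C, hC⟩ := Pool.Agent.J4.H87.Ray.finB hq hρ hK
    refine ⟨C, fun U f y h hae => hC U f y h.1 h.2.1 h.2.2.1 h.2.2.2.1 h.2.2.2.2 ?_⟩
    filter_upwards [hae] with θ hθ
    obtain ⟨a, S, hS, hF⟩ := hθ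
    exact hP _ a S hS hF

end Pool.Agent.Results.MP_5ab805_an.RayVariation
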